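import Pool.Agent.EL.NotA
import Pool.Agent.EL.LadB

set_option autoImplicit false

/-!
# MP_8c47b5_lc: Martin's Maximum implies `B ∧ ¬ A`

* `LadderA` (statement `A`): there is a `(2, ℵ₁)`-ladder of cardinality `ℵ₂`.
* `LadderB` (statement `B`): there is a `3`-ladder of cardinality `ℵ₂`.
* `MartinsMaximum`: for every poset preserving stationary subsets of `ω₁` and every family of `ℵ₁`
  dense sets there is a filter meeting all of them.

Since Martin's Maximum is consistent relative to a supercompact cardinal (Foreman–Magidor–Shelah),
`B ∧ ¬ A` is consistent relative to a supercompact cardinal, i.e. the answer to (b) is negative, and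
`A` is not a theorem of ZFC.

Idea of the proof of `¬ A`.  Let `L` be a `(2, ℵ₁)`-ladder of size `ℵ₂`.  There is a strictly
increasing `c : ω₁ → L`.  The ideals of size `≤ ℵ₁` containing all `c ξ` are linearly ordered by
inclusion.  For `g : ω₁ → ω₁` the set of all countable `x ⊆ L` with trace `i` on `c` such that all
upper bounds of `x` are above `c (g i)` is projectively stationary (this uses `MA` for countable
posets, and the existence of meets in `L`).  The strong reflection principle then gives `z ∈ L`
and a club `D` such that for `i ∈ D` every `e ≥ z` above all `c j`, `j < i`, is above `c (g i)`.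
Applying this to infinitely many functions `g` gives a contradiction.
-/

namespace Pool.Agent.Results.MP_8c47b5_lc.MartinsMaximum

open Pool.Agent.EL

/-- Martin's Maximum implies that there is a `3`-ladder of cardinality `ℵ₂`, but no
`(2, ℵ₁)`-ladder of cardinality `ℵ₂`. -/
theorem result (hMM : MartinsMaximum) : LadderB ∧ ¬ LadderA :=
  ⟨ladderB_of_ma (ma1_of_mm hMM), not_ladderA hMM⟩

end Pool.Agent.Results.MP_8c47b5_lc.MartinsMaximum
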