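import Pool.Agent.EM.Main

set_option autoImplicit false

/-!
# MP_8c47b5_lc, direction (a): `A` does not imply `B`

Let `κ` be a measurable cardinal.  There is a poset which forces: `κ` is of cardinality `ℵ₂`, `A`
holds and `B` fails.  So `A ∧ ¬ B` is consistent relative to a measurable cardinal, the answer to (a)
is negative, and ZFC does not prove that there is a `3`-ladder of cardinality `ℵ₂`.

The poset is `Cond × Col`.  A condition of `Cond` is a countable set `Q` of countable subsets of `κ`,
closed under initial segments, such that two members with the same downward closure are comparable,
without infinite descending sequences; `q` is stronger than `p` if `Q p ⊆ Q q` is downward closed in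
`Q q`.  The union of the sets `Q` is a lattice: meets are intersections, and the join of `F` and `G`
is the least member which contains both and has the same downward closure as one of them; this gives
`A`.  `Col` collapses all `β < κ` to `ω₁` with countable conditions.

Let `d` be in the ladder, `d ≥ δ`, and put `h_δ(r) = max {z < δ | z ≤ d ∨ r}`, a regressive function
of `δ`.  In a `3`-ladder one of any four elements is below the join of the others.  This is used
together with a normal measure on `κ` (functions `f` from `κ` to the poset with `f δ` supported below
`δ` are constant almost everywhere) in order to find elements `r` with unboundedly many possible values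
of `h(r)`, and four sequences of conditions and infinitely many elements `e n` of the ladder such that
`e (n+1)` is the join of two values `h_δ(e n)`.  For suitable `δ 1, ..., δ 4` all `e n` are below the
join of `e 0` and four elements, a contradiction to the finiteness of the ideals.
-/

namespace Pool.Agent.Results.MP_8c47b5_lc.MeasurableAnotB

open Cardinal Pool.Agent.EM

/-- For every measurable cardinal `κ` there is a poset all of whose conditions force: `κ` is of
cardinality `ℵ₂`, `A` holds and `B` fails. -/
theorem result :
    ∀ κ : Cardinal.{0}, IsMeasurable κ → ∃ (P : Type) (_ : PartialOrder P) (_ : Nonempty P),
      ∀ p : P, CardAlephTwo (WO κ) p ∧ SenA (WO κ) p ∧ Sen.not (SenB (WO κ)) p :=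
  measurableAnotB

end Pool.Agent.Results.MP_8c47b5_lc.MeasurableAnotB
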